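import Pool.Agent.H.MP_b28609_co.V4.D8

/-!
# MP_b28609_co: 8 rows, steps
-/

set_option autoImplicit false
set_option maxRecDepth 100000

namespace PatDom.V4

open PatDom.V2 PatDom.V3

theorem t8_2ll_ok : allT (stepN par8 t8_3) t8_2ll = true := by decide +kernel

theorem t8_2lr_ok : allT (stepN par8 t8_3) t8_2lr = true := by decide +kernel

theorem t8_2l_ok : allT (stepN par8 t8_3) t8_2l = true :=
  allT_node _ _ _ _ _ (by decide +kernel) t8_2ll_ok t8_2lr_ok

theorem t8_2rl_ok : allT (stepN par8 t8_3) t8_2rl = true := by decide +kernel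

theorem t8_2rr_ok : allT (stepN par8 t8_3) t8_2rr = true := by decide +kernel

theorem t8_2r_ok : allT (stepN par8 t8_3) t8_2r = true :=
  allT_node _ _ _ _ _ (by decide +kernel) t8_2rl_ok t8_2rr_ok

theorem t8_2_ok : allT (stepN par8 t8_3) t8_2 = true :=
  allT_node _ _ _ _ _ (by decide +kernel) t8_2l_ok t8_2r_ok

theorem t8_3ll_ok : allT (stepN par8 t8_4) t8_3ll = true := by decide +kernel

theorem t8_3lr_ok : allT (stepN par8 t8_4) t8_3lr = true := by decide +kernel

theorem t8_3l_ok : allT (stepN par8 t8_4) t8_3l = true :=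
  allT_node _ _ _ _ _ (by decide +kernel) t8_3ll_ok t8_3lr_ok

theorem t8_3rl_ok : allT (stepN par8 t8_4) t8_3rl = true := by decide +kernel

theorem t8_3rr_ok : allT (stepN par8 t8_4) t8_3rr = true := by decide +kernel

theorem t8_3r_ok : allT (stepN par8 t8_4) t8_3r = true :=
  allT_node _ _ _ _ _ (by decide +kernel) t8_3rl_ok t8_3rr_ok

theorem t8_3_ok : allT (stepN par8 t8_4) t8_3 = true :=
  allT_node _ _ _ _ _ (by decide +kernel) t8_3l_ok t8_3r_ok

end PatDom.V4
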