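import Pool.Agent.H.MP_b28609_co.V4.D8

/-!
# MP_b28609_co: 8 rows, steps
-/

set_option autoImplicit false
set_option maxRecDepth 100000

namespace PatDom.V4

open PatDom.V2 PatDom.V3

theorem t8_4lll_ok : allT (stepN par8 t8_5) t8_4lll = true := by decide +kernel

theorem t8_4llr_ok : allT (stepN par8 t8_5) t8_4llr = true := by decide +kernel

theorem t8_4ll_ok : allT (stepN par8 t8_5) t8_4ll = true :=
  allT_node _ _ _ _ _ (by decide +kernel) t8_4lll_ok t8_4llr_ok

theorem t8_4lrl_ok : allT (stepN par8 t8_5) t8_4lrl = true := by decide +kernel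

theorem t8_4lrr_ok : allT (stepN par8 t8_5) t8_4lrr = true := by decide +kernel

theorem t8_4lr_ok : allT (stepN par8 t8_5) t8_4lr = true :=
  allT_node _ _ _ _ _ (by decide +kernel) t8_4lrl_ok t8_4lrr_ok

theorem t8_4l_ok : allT (stepN par8 t8_5) t8_4l = true :=
  allT_node _ _ _ _ _ (by decide +kernel) t8_4ll_ok t8_4lr_ok

theorem t8_4rll_ok : allT (stepN par8 t8_5) t8_4rll = true := by decide +kernel

theorem t8_4rlr_ok : allT (stepN par8 t8_5) t8_4rlr = true := by decide +kernel

theorem t8_4rl_ok : allT (stepN par8 t8_5) t8_4rl = true :=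
  allT_node _ _ _ _ _ (by decide +kernel) t8_4rll_ok t8_4rlr_ok

theorem t8_4rrl_ok : allT (stepN par8 t8_5) t8_4rrl = true := by decide +kernel

theorem t8_4rrr_ok : allT (stepN par8 t8_5) t8_4rrr = true := by decide +kernel

theorem t8_4rr_ok : allT (stepN par8 t8_5) t8_4rr = true :=
  allT_node _ _ _ _ _ (by decide +kernel) t8_4rrl_ok t8_4rrr_ok

theorem t8_4r_ok : allT (stepN par8 t8_5) t8_4r = true :=
  allT_node _ _ _ _ _ (by decide +kernel) t8_4rl_ok t8_4rr_ok

theorem t8_4_ok : allT (stepN par8 t8_5) t8_4 = true :=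
  allT_node _ _ _ _ _ (by decide +kernel) t8_4l_ok t8_4r_ok

end PatDom.V4
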