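import Pool.Agent.H.MP_b28609_co.V4.D8

/-!
# MP_b28609_co: 8 rows, steps
-/

set_option autoImplicit false
set_option maxRecDepth 100000

namespace PatDom.V4

open PatDom.V2 PatDom.V3

theorem t8_5llll_ok : allT (stepN par8 t8_6) t8_5llll = true := by decide +kernel

theorem t8_5lllr_ok : allT (stepN par8 t8_6) t8_5lllr = true := by decide +kernel

theorem t8_5lll_ok : allT (stepN par8 t8_6) t8_5lll = true :=
  allT_node _ _ _ _ _ (by decide +kernel) t8_5llll_ok t8_5lllr_ok

theorem t8_5llrl_ok : allT (stepN par8 t8_6) t8_5llrl = true := by decide +kernel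

theorem t8_5llrr_ok : allT (stepN par8 t8_6) t8_5llrr = true := by decide +kernel

theorem t8_5llr_ok : allT (stepN par8 t8_6) t8_5llr = true :=
  allT_node _ _ _ _ _ (by decide +kernel) t8_5llrl_ok t8_5llrr_ok

theorem t8_5ll_ok : allT (stepN par8 t8_6) t8_5ll = true :=
  allT_node _ _ _ _ _ (by decide +kernel) t8_5lll_ok t8_5llr_ok

theorem t8_5lrll_ok : allT (stepN par8 t8_6) t8_5lrll = true := by decide +kernel

theorem t8_5lrlr_ok : allT (stepN par8 t8_6) t8_5lrlr = true := by decide +kernel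

theorem t8_5lrl_ok : allT (stepN par8 t8_6) t8_5lrl = true :=
  allT_node _ _ _ _ _ (by decide +kernel) t8_5lrll_ok t8_5lrlr_ok

theorem t8_5lrrl_ok : allT (stepN par8 t8_6) t8_5lrrl = true := by decide +kernel

theorem t8_5lrrr_ok : allT (stepN par8 t8_6) t8_5lrrr = true := by decide +kernel

theorem t8_5lrr_ok : allT (stepN par8 t8_6) t8_5lrr = true :=
  allT_node _ _ _ _ _ (by decide +kernel) t8_5lrrl_ok t8_5lrrr_ok

theorem t8_5lr_ok : allT (stepN par8 t8_6) t8_5lr = true :=
  allT_node _ _ _ _ _ (by decide +kernel) t8_5lrl_ok t8_5lrr_ok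

theorem t8_5l_ok : allT (stepN par8 t8_6) t8_5l = true :=
  allT_node _ _ _ _ _ (by decide +kernel) t8_5ll_ok t8_5lr_ok

theorem t8_5rlll_ok : allT (stepN par8 t8_6) t8_5rlll = true := by decide +kernel

theorem t8_5rllr_ok : allT (stepN par8 t8_6) t8_5rllr = true := by decide +kernel

theorem t8_5rll_ok : allT (stepN par8 t8_6) t8_5rll = true :=
  allT_node _ _ _ _ _ (by decide +kernel) t8_5rlll_ok t8_5rllr_ok

theorem t8_5rlrl_ok : allT (stepN par8 t8_6) t8_5rlrl = true := by decide +kernel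

theorem t8_5rlrr_ok : allT (stepN par8 t8_6) t8_5rlrr = true := by decide +kernel

theorem t8_5rlr_ok : allT (stepN par8 t8_6) t8_5rlr = true :=
  allT_node _ _ _ _ _ (by decide +kernel) t8_5rlrl_ok t8_5rlrr_ok

theorem t8_5rl_ok : allT (stepN par8 t8_6) t8_5rl = true :=
  allT_node _ _ _ _ _ (by decide +kernel) t8_5rll_ok t8_5rlr_ok

theorem t8_5rrll_ok : allT (stepN par8 t8_6) t8_5rrll = true := by decide +kernel

theorem t8_5rrlr_ok : allT (stepN par8 t8_6) t8_5rrlr = true := by decide +kernel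

theorem t8_5rrl_ok : allT (stepN par8 t8_6) t8_5rrl = true :=
  allT_node _ _ _ _ _ (by decide +kernel) t8_5rrll_ok t8_5rrlr_ok

theorem t8_5rrrl_ok : allT (stepN par8 t8_6) t8_5rrrl = true := by decide +kernel

theorem t8_5rrrr_ok : allT (stepN par8 t8_6) t8_5rrrr = true := by decide +kernel

theorem t8_5rrr_ok : allT (stepN par8 t8_6) t8_5rrr = true :=
  allT_node _ _ _ _ _ (by decide +kernel) t8_5rrrl_ok t8_5rrrr_ok

theorem t8_5rr_ok : allT (stepN par8 t8_6) t8_5rr = true :=
  allT_node _ _ _ _ _ (by decide +kernel) t8_5rrl_ok t8_5rrr_ok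

theorem t8_5r_ok : allT (stepN par8 t8_6) t8_5r = true :=
  allT_node _ _ _ _ _ (by decide +kernel) t8_5rl_ok t8_5rr_ok

theorem t8_5_ok : allT (stepN par8 t8_6) t8_5 = true :=
  allT_node _ _ _ _ _ (by decide +kernel) t8_5l_ok t8_5r_ok

end PatDom.V4
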