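import Pool.Agent.H.MP_b28609_co.V4.D8

/-!
# MP_b28609_co: 8 rows, steps
-/

set_option autoImplicit false
set_option maxRecDepth 100000

namespace PatDom.V4

open PatDom.V2 PatDom.V3

theorem t8_6lll_ok : allT (stepN par8 t8_7) t8_6lll = true := by decide +kernel

theorem t8_6llr_ok : allT (stepN par8 t8_7) t8_6llr = true := by decide +kernel

theorem t8_6ll_ok : allT (stepN par8 t8_7) t8_6ll = true :=
  allT_node _ _ _ _ _ (by decide +kernel) t8_6lll_ok t8_6llr_ok

theorem t8_6lrl_ok : allT (stepN par8 t8_7) t8_6lrl = true := by decide +kernel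

theorem t8_6lrr_ok : allT (stepN par8 t8_7) t8_6lrr = true := by decide +kernel

theorem t8_6lr_ok : allT (stepN par8 t8_7) t8_6lr = true :=
  allT_node _ _ _ _ _ (by decide +kernel) t8_6lrl_ok t8_6lrr_ok

theorem t8_6l_ok : allT (stepN par8 t8_7) t8_6l = true :=
  allT_node _ _ _ _ _ (by decide +kernel) t8_6ll_ok t8_6lr_ok

theorem t8_6rll_ok : allT (stepN par8 t8_7) t8_6rll = true := by decide +kernel

theorem t8_6rlr_ok : allT (stepN par8 t8_7) t8_6rlr = true := by decide +kernel

theorem t8_6rl_ok : allT (stepN par8 t8_7) t8_6rl = true :=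
  allT_node _ _ _ _ _ (by decide +kernel) t8_6rll_ok t8_6rlr_ok

theorem t8_6rrl_ok : allT (stepN par8 t8_7) t8_6rrl = true := by decide +kernel

theorem t8_6rrr_ok : allT (stepN par8 t8_7) t8_6rrr = true := by decide +kernel

theorem t8_6rr_ok : allT (stepN par8 t8_7) t8_6rr = true :=
  allT_node _ _ _ _ _ (by decide +kernel) t8_6rrl_ok t8_6rrr_ok

theorem t8_6r_ok : allT (stepN par8 t8_7) t8_6r = true :=
  allT_node _ _ _ _ _ (by decide +kernel) t8_6rl_ok t8_6rr_ok

theorem t8_6_ok : allT (stepN par8 t8_7) t8_6 = true :=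
  allT_node _ _ _ _ _ (by decide +kernel) t8_6l_ok t8_6r_ok

theorem t8_7lll_ok : allT (stepN par8 t8_8) t8_7lll = true := by decide +kernel

theorem t8_7llr_ok : allT (stepN par8 t8_8) t8_7llr = true := by decide +kernel

theorem t8_7ll_ok : allT (stepN par8 t8_8) t8_7ll = true :=
  allT_node _ _ _ _ _ (by decide +kernel) t8_7lll_ok t8_7llr_ok

theorem t8_7lrl_ok : allT (stepN par8 t8_8) t8_7lrl = true := by decide +kernel

theorem t8_7lrr_ok : allT (stepN par8 t8_8) t8_7lrr = true := by decide +kernel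

theorem t8_7lr_ok : allT (stepN par8 t8_8) t8_7lr = true :=
  allT_node _ _ _ _ _ (by decide +kernel) t8_7lrl_ok t8_7lrr_ok

theorem t8_7l_ok : allT (stepN par8 t8_8) t8_7l = true :=
  allT_node _ _ _ _ _ (by decide +kernel) t8_7ll_ok t8_7lr_ok

theorem t8_7rll_ok : allT (stepN par8 t8_8) t8_7rll = true := by decide +kernel

theorem t8_7rlr_ok : allT (stepN par8 t8_8) t8_7rlr = true := by decide +kernel

theorem t8_7rl_ok : allT (stepN par8 t8_8) t8_7rl = true :=
  allT_node _ _ _ _ _ (by decide +kernel) t8_7rll_ok t8_7rlr_ok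

theorem t8_7rrl_ok : allT (stepN par8 t8_8) t8_7rrl = true := by decide +kernel

theorem t8_7rrr_ok : allT (stepN par8 t8_8) t8_7rrr = true := by decide +kernel

theorem t8_7rr_ok : allT (stepN par8 t8_8) t8_7rr = true :=
  allT_node _ _ _ _ _ (by decide +kernel) t8_7rrl_ok t8_7rrr_ok

theorem t8_7r_ok : allT (stepN par8 t8_8) t8_7r = true :=
  allT_node _ _ _ _ _ (by decide +kernel) t8_7rl_ok t8_7rr_ok

theorem t8_7_ok : allT (stepN par8 t8_8) t8_7 = true :=
  allT_node _ _ _ _ _ (by decide +kernel) t8_7l_ok t8_7r_ok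

theorem t8_8ll_ok : allT (stepN par8 t8_9) t8_8ll = true := by decide +kernel

theorem t8_8lr_ok : allT (stepN par8 t8_9) t8_8lr = true := by decide +kernel

theorem t8_8l_ok : allT (stepN par8 t8_9) t8_8l = true :=
  allT_node _ _ _ _ _ (by decide +kernel) t8_8ll_ok t8_8lr_ok

theorem t8_8rl_ok : allT (stepN par8 t8_9) t8_8rl = true := by decide +kernel

theorem t8_8rr_ok : allT (stepN par8 t8_9) t8_8rr = true := by decide +kernel

theorem t8_8r_ok : allT (stepN par8 t8_9) t8_8r = true :=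
  allT_node _ _ _ _ _ (by decide +kernel) t8_8rl_ok t8_8rr_ok

theorem t8_8_ok : allT (stepN par8 t8_9) t8_8 = true :=
  allT_node _ _ _ _ _ (by decide +kernel) t8_8l_ok t8_8r_ok

theorem t8_9_ok : allT (stepN par8 t8_10) t8_9 = true := by decide +kernel

theorem t8_10_ok : allT (stepN par8 t8_11) t8_10 = true := by decide +kernel

end PatDom.V4
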