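import Pool.Agent.H.MP_b28609_co.V4.D8

/-!
# MP_b28609_co: 8 rows, potentials
-/

set_option autoImplicit false
set_option maxRecDepth 100000

namespace PatDom.V4

open PatDom.V2 PatDom.V3

theorem pr8_0 : potRowsN par8 0 16 = true := by decide +kernel

theorem pr8_16 : potRowsN par8 16 16 = true := by decide +kernel

theorem pr8_32 : potRowsN par8 32 16 = true := by decide +kernel

theorem pr8_48 : potRowsN par8 48 16 = true := by decide +kernel

theorem pr8_64 : potRowsN par8 64 16 = true := by decide +kernel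

theorem pr8_80 : potRowsN par8 80 16 = true := by decide +kernel

theorem pr8_96 : potRowsN par8 96 16 = true := by decide +kernel

theorem pr8_112 : potRowsN par8 112 16 = true := by decide +kernel

theorem pr8_128 : potRowsN par8 128 16 = true := by decide +kernel

theorem pr8_144 : potRowsN par8 144 16 = true := by decide +kernel

theorem pr8_160 : potRowsN par8 160 16 = true := by decide +kernel

theorem pr8_176 : potRowsN par8 176 16 = true := by decide +kernel

theorem pr8_192 : potRowsN par8 192 16 = true := by decide +kernel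

theorem pr8_208 : potRowsN par8 208 16 = true := by decide +kernel

theorem pr8_224 : potRowsN par8 224 16 = true := by decide +kernel

theorem pr8_240 : potRowsN par8 240 16 = true := by decide +kernel

theorem pot8 : V2.PotOK par8 := by
  intro A C hA hC hs
  have hA' : A < 256 := hA
  have hc : (0 ≤ A ∧ A < 16) ∨ (16 ≤ A ∧ A < 32) ∨ (32 ≤ A ∧ A < 48) ∨ (48 ≤ A ∧ A < 64) ∨ (64 ≤ A ∧ A < 80) ∨ (80 ≤ A ∧ A < 96) ∨ (96 ≤ A ∧ A < 112) ∨ (112 ≤ A ∧ A < 128) ∨ (128 ≤ A ∧ A < 144) ∨ (144 ≤ A ∧ A < 160) ∨ (160 ≤ A ∧ A < 176) ∨ (176 ≤ A ∧ A < 192) ∨ (192 ≤ A ∧ A < 208) ∨ (208 ≤ A ∧ A < 224) ∨ (224 ≤ A ∧ A < 240) ∨ (240 ≤ A ∧ A < 256) := by omega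
  rcases hc with h | h | h | h | h | h | h | h | h | h | h | h | h | h | h | h
  · exact V2.potRows_sound par8 0 16 (potRowsN_sound _ (by decide) _ _ pr8_0) A h.1 h.2 C hC hs
  · exact V2.potRows_sound par8 16 16 (potRowsN_sound _ (by decide) _ _ pr8_16) A h.1 h.2 C hC hs
  · exact V2.potRows_sound par8 32 16 (potRowsN_sound _ (by decide) _ _ pr8_32) A h.1 h.2 C hC hs
  · exact V2.potRows_sound par8 48 16 (potRowsN_sound _ (by decide) _ _ pr8_48) A h.1 h.2 C hC hs
  · exact V2.potRows_sound par8 64 16 (potRowsN_sound _ (by decide) _ _ pr8_64) A h.1 h.2 C hC hs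
  · exact V2.potRows_sound par8 80 16 (potRowsN_sound _ (by decide) _ _ pr8_80) A h.1 h.2 C hC hs
  · exact V2.potRows_sound par8 96 16 (potRowsN_sound _ (by decide) _ _ pr8_96) A h.1 h.2 C hC hs
  · exact V2.potRows_sound par8 112 16 (potRowsN_sound _ (by decide) _ _ pr8_112) A h.1 h.2 C hC hs
  · exact V2.potRows_sound par8 128 16 (potRowsN_sound _ (by decide) _ _ pr8_128) A h.1 h.2 C hC hs
  · exact V2.potRows_sound par8 144 16 (potRowsN_sound _ (by decide) _ _ pr8_144) A h.1 h.2 C hC hs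
  · exact V2.potRows_sound par8 160 16 (potRowsN_sound _ (by decide) _ _ pr8_160) A h.1 h.2 C hC hs
  · exact V2.potRows_sound par8 176 16 (potRowsN_sound _ (by decide) _ _ pr8_176) A h.1 h.2 C hC hs
  · exact V2.potRows_sound par8 192 16 (potRowsN_sound _ (by decide) _ _ pr8_192) A h.1 h.2 C hC hs
  · exact V2.potRows_sound par8 208 16 (potRowsN_sound _ (by decide) _ _ pr8_208) A h.1 h.2 C hC hs
  · exact V2.potRows_sound par8 224 16 (potRowsN_sound _ (by decide) _ _ pr8_224) A h.1 h.2 C hC hs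
  · exact V2.potRows_sound par8 240 16 (potRowsN_sound _ (by decide) _ _ pr8_240) A h.1 h.2 C hC hs

end PatDom.V4
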