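import Pool.Agent.H.MP_b28609_co.V4.C8_0
import Pool.Agent.H.MP_b28609_co.V4.C8_1
import Pool.Agent.H.MP_b28609_co.V4.C8_2
import Pool.Agent.H.MP_b28609_co.V4.C8_3
import Pool.Agent.H.MP_b28609_co.V4.C8_4
import Pool.Agent.H.MP_b28609_co.V4.Po8

/-!
# MP_b28609_co: 8 rows, lower bound
-/

set_option autoImplicit false
set_option maxRecDepth 100000

namespace PatDom.V4

open PatDom.V2 PatDom.V3

theorem fi8_0 : allT (V2.termOK par8 9 0) t8_0 = true := by decide +kernel

theorem fi8_1 : allT (V2.termOK par8 9 9) t8_1 = true := by decide +kernel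

theorem fi8_2 : allT (V2.termOK par8 9 10) t8_2 = true := by decide +kernel

theorem fi8_3 : allT (V2.termOK par8 9 10) t8_3 = true := by decide +kernel

theorem fi8_4 : allT (V2.termOK par8 9 4) t8_4 = true := by decide +kernel

theorem fi8_5 : allT (V2.termOK par8 9 10) t8_5 = true := by decide +kernel

theorem fi8_6 : allT (V2.termOK par8 9 6) t8_6 = true := by decide +kernel

theorem fi8_7 : allT (V2.termOK par8 9 7) t8_7 = true := by decide +kernel

theorem fi8_8 : allT (V2.termOK par8 9 8) t8_8 = true := by decide +kernel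

theorem fi8_9 : allT (V2.termOK par8 9 9) t8_9 = true := by decide +kernel

theorem fi8_10 : allT (V2.termOK par8 9 10) t8_10 = true := by decide +kernel

theorem fi8_11 : allT (V2.termOK par8 9 10) t8_11 = true := by decide +kernel

theorem low8 (n : ℕ) (D : Finset (Fin 8 × Fin n)) (hD : Patrol (grid 8 n) D) :
    15 * n + vl8 n ≤ 8 * D.card :=
  low_tree par8 pot8 9 9 11 tr8 vl8 (by decide +kernel) rfl
    (fun j hj => by
      have hc : j = 0 ∨ j = 1 ∨ j = 2 ∨ j = 3 ∨ j = 4 ∨ j = 5 ∨ j = 6 ∨ j = 7 ∨ j = 8 ∨ j = 9 ∨ j = 10 := by omega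
      rcases hc with rfl | rfl | rfl | rfl | rfl | rfl | rfl | rfl | rfl | rfl | rfl
      · exact allN _ (by decide) _ _ t8_0_ok
      · exact allN _ (by decide) _ _ t8_1_ok
      · exact allN _ (by decide) _ _ t8_2_ok
      · exact allN _ (by decide) _ _ t8_3_ok
      · exact allN _ (by decide) _ _ t8_4_ok
      · exact allN _ (by decide) _ _ t8_5_ok
      · exact allN _ (by decide) _ _ t8_6_ok
      · exact allN _ (by decide) _ _ t8_7_ok
      · exact allN _ (by decide) _ _ t8_8_ok
      · exact allN _ (by decide) _ _ t8_9_ok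
      · exact allN _ (by decide) _ _ t8_10_ok)
    (fun j hj => by
      have hc : j = 0 ∨ j = 1 ∨ j = 2 ∨ j = 3 ∨ j = 4 ∨ j = 5 ∨ j = 6 ∨ j = 7 ∨ j = 8 ∨ j = 9 ∨ j = 10 ∨ j = 11 := by omega
      rcases hc with rfl | rfl | rfl | rfl | rfl | rfl | rfl | rfl | rfl | rfl | rfl | rfl
      · exact ⟨fi8_0, by decide⟩
      · exact ⟨fi8_1, by decide⟩
      · exact ⟨fi8_2, by decide⟩
      · exact ⟨fi8_3, by decide⟩
      · exact ⟨fi8_4, by decide⟩
      · exact ⟨fi8_5, by decide⟩
      · exact ⟨fi8_6, by decide⟩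
      · exact ⟨fi8_7, by decide⟩
      · exact ⟨fi8_8, by decide⟩
      · exact ⟨fi8_9, by decide⟩
      · exact ⟨fi8_10, by decide⟩
      · exact ⟨fi8_11, by decide⟩)
    (fun j hj => by
      rcases Nat.lt_or_ge j 12 with h | h
      · have : j = 11 := by omega
        subst this
        rfl
      · obtain ⟨k, rfl⟩ : ∃ k, j = k + 12 := ⟨j - 12, by omega⟩
        rfl)
    (fun j hj => by
      obtain ⟨k, rfl⟩ : ∃ k, j = k + 12 := ⟨j - 12, by omega⟩
      rfl) n D hD

end PatDom.V4
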