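import Pool.Agent.H.MP_b28609_co.V4.D8

/-!
# MP_b28609_co: 8 rows, steps
-/

set_option autoImplicit false
set_option maxRecDepth 100000

namespace PatDom.V4

open PatDom.V2 PatDom.V3

theorem t8_0_ok : allT (stepN par8 t8_1) t8_0 = true := by decide +kernel

theorem t8_1llll_ok : allT (stepN par8 t8_2) t8_1llll = true := by decide +kernel

theorem t8_1lllr_ok : allT (stepN par8 t8_2) t8_1lllr = true := by decide +kernel

theorem t8_1lll_ok : allT (stepN par8 t8_2) t8_1lll = true :=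
  allT_node _ _ _ _ _ (by decide +kernel) t8_1llll_ok t8_1lllr_ok

theorem t8_1llrl_ok : allT (stepN par8 t8_2) t8_1llrl = true := by decide +kernel

theorem t8_1llrr_ok : allT (stepN par8 t8_2) t8_1llrr = true := by decide +kernel

theorem t8_1llr_ok : allT (stepN par8 t8_2) t8_1llr = true :=
  allT_node _ _ _ _ _ (by decide +kernel) t8_1llrl_ok t8_1llrr_ok

theorem t8_1ll_ok : allT (stepN par8 t8_2) t8_1ll = true :=
  allT_node _ _ _ _ _ (by decide +kernel) t8_1lll_ok t8_1llr_ok

theorem t8_1lrll_ok : allT (stepN par8 t8_2) t8_1lrll = true := by decide +kernel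

theorem t8_1lrlr_ok : allT (stepN par8 t8_2) t8_1lrlr = true := by decide +kernel

theorem t8_1lrl_ok : allT (stepN par8 t8_2) t8_1lrl = true :=
  allT_node _ _ _ _ _ (by decide +kernel) t8_1lrll_ok t8_1lrlr_ok

theorem t8_1lrrl_ok : allT (stepN par8 t8_2) t8_1lrrl = true := by decide +kernel

theorem t8_1lrrr_ok : allT (stepN par8 t8_2) t8_1lrrr = true := by decide +kernel

theorem t8_1lrr_ok : allT (stepN par8 t8_2) t8_1lrr = true :=
  allT_node _ _ _ _ _ (by decide +kernel) t8_1lrrl_ok t8_1lrrr_ok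

theorem t8_1lr_ok : allT (stepN par8 t8_2) t8_1lr = true :=
  allT_node _ _ _ _ _ (by decide +kernel) t8_1lrl_ok t8_1lrr_ok

theorem t8_1l_ok : allT (stepN par8 t8_2) t8_1l = true :=
  allT_node _ _ _ _ _ (by decide +kernel) t8_1ll_ok t8_1lr_ok

theorem t8_1rlll_ok : allT (stepN par8 t8_2) t8_1rlll = true := by decide +kernel

theorem t8_1rllr_ok : allT (stepN par8 t8_2) t8_1rllr = true := by decide +kernel

theorem t8_1rll_ok : allT (stepN par8 t8_2) t8_1rll = true :=
  allT_node _ _ _ _ _ (by decide +kernel) t8_1rlll_ok t8_1rllr_ok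

theorem t8_1rlrl_ok : allT (stepN par8 t8_2) t8_1rlrl = true := by decide +kernel

theorem t8_1rlrr_ok : allT (stepN par8 t8_2) t8_1rlrr = true := by decide +kernel

theorem t8_1rlr_ok : allT (stepN par8 t8_2) t8_1rlr = true :=
  allT_node _ _ _ _ _ (by decide +kernel) t8_1rlrl_ok t8_1rlrr_ok

theorem t8_1rl_ok : allT (stepN par8 t8_2) t8_1rl = true :=
  allT_node _ _ _ _ _ (by decide +kernel) t8_1rll_ok t8_1rlr_ok

theorem t8_1rrll_ok : allT (stepN par8 t8_2) t8_1rrll = true := by decide +kernel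

theorem t8_1rrlr_ok : allT (stepN par8 t8_2) t8_1rrlr = true := by decide +kernel

theorem t8_1rrl_ok : allT (stepN par8 t8_2) t8_1rrl = true :=
  allT_node _ _ _ _ _ (by decide +kernel) t8_1rrll_ok t8_1rrlr_ok

theorem t8_1rrrl_ok : allT (stepN par8 t8_2) t8_1rrrl = true := by decide +kernel

theorem t8_1rrrr_ok : allT (stepN par8 t8_2) t8_1rrrr = true := by decide +kernel

theorem t8_1rrr_ok : allT (stepN par8 t8_2) t8_1rrr = true :=
  allT_node _ _ _ _ _ (by decide +kernel) t8_1rrrl_ok t8_1rrrr_ok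

theorem t8_1rr_ok : allT (stepN par8 t8_2) t8_1rr = true :=
  allT_node _ _ _ _ _ (by decide +kernel) t8_1rrl_ok t8_1rrr_ok

theorem t8_1r_ok : allT (stepN par8 t8_2) t8_1r = true :=
  allT_node _ _ _ _ _ (by decide +kernel) t8_1rl_ok t8_1rr_ok

theorem t8_1_ok : allT (stepN par8 t8_2) t8_1 = true :=
  allT_node _ _ _ _ _ (by decide +kernel) t8_1l_ok t8_1r_ok

end PatDom.V4
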