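import Pool.Agent.H.MP_b28609_co.V3.Tr

/-!
# MP_b28609_co: enumeration of subsets of bounded size
-/

set_option autoImplicit false

namespace PatDom.V4

open PatDom.V2 PatDom.V3

/-- `f (acc ||| U) (n + |U|)` for all `U < 2 ^ k` with at most `b` bits, all of them bits of `c`. -/
def allSubN (k c acc n b : ℕ) (f : ℕ → ℕ → Bool) : Bool :=
  Nat.rec (motive := fun _ => ℕ → ℕ → ℕ → Bool) (fun a n _ => f a n)
    (fun k ih a n b => ih a n b &&
      (!(bitB c k) || (Nat.beq b 0 || ih (a ||| 2 ^ k) (n + 1) (b - 1)))) k acc n b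

theorem pop_succ (k U : ℕ) : pop (k + 1) U = (if U.testBit k = true then 1 else 0) + pop k U := by
  rw [pop_eq, pop_eq, Finset.sum_range_succ, add_comm]

theorem pop_congr (k U W : ℕ) (h : ∀ i < k, U.testBit i = W.testBit i) : pop k U = pop k W := by
  rw [pop_eq, pop_eq]
  apply Finset.sum_congr rfl
  intro i hi
  rw [h i (Finset.mem_range.1 hi)]

theorem pop_or (m a b : ℕ) (h : ∀ i, ¬ (a.testBit i = true ∧ b.testBit i = true)) :
    pop m (a ||| b) = pop m a + pop m b := by
  rw [pop_eq, pop_eq, pop_eq, ← Finset.sum_add_distrib]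
  apply Finset.sum_congr rfl
  intro i _
  have h1 := h i
  rw [Nat.testBit_or]
  revert h1
  cases a.testBit i <;> cases b.testBit i <;> simp

theorem allSubN_sound (f : ℕ → ℕ → Bool) (c : ℕ) : ∀ k acc n b, allSubN k c acc n b f = true →
    ∀ U, U < 2 ^ k → (∀ i, U.testBit i = true → c.testBit i = true) → pop k U ≤ b →
      f (acc ||| U) (n + pop k U) = true := by
  intro k
  induction k with
  | zero =>
    intro acc n b h U hU _ _
    have : U = 0 := by simpa using hU
    subst this
    rw [Nat.or_zero]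
    exact h
  | succ k ih =>
    intro acc n b h U hU hs hb
    have h' : (allSubN k c acc n b f && (!(bitB c k) ||
      (Nat.beq b 0 || allSubN k c (acc ||| 2 ^ k) (n + 1) (b - 1) f))) = true := h
    rw [Bool.and_eq_true] at h'
    by_cases hk : U.testBit k = true
    · have h2 := h'.2
      rw [bitB_eq, hs k hk] at h2
      simp only [Bool.not_true, Bool.false_or] at h2
      rw [pop_succ, if_pos hk] at hb ⊢
      have hb0 : Nat.beq b 0 = false := by
        cases hbb : Nat.beq b 0 with
        | false => rfl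
        | true =>
          rw [Nat.beq_eq] at hbb
          omega
      rw [hb0, Bool.false_or] at h2
      have hU' : U % 2 ^ k < 2 ^ k := Nat.mod_lt _ (Nat.two_pow_pos _)
      have hpc : pop k (U % 2 ^ k) = pop k U := by
        apply pop_congr
        intro i hi
        rw [Nat.testBit_mod_two_pow]
        simp [hi]
      have h3 := ih _ _ _ h2 (U % 2 ^ k) hU' (by
        intro i hi
        rw [Nat.testBit_mod_two_pow] at hi
        simp only [Bool.and_eq_true] at hi
        exact hs i hi.2) (by omega)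
      have e : (acc ||| 2 ^ k) ||| U % 2 ^ k = acc ||| U := by
        apply Nat.eq_of_testBit_eq
        intro i
        rw [Nat.testBit_or, Nat.testBit_or, Nat.testBit_or, Nat.testBit_mod_two_pow,
          Nat.testBit_two_pow]
        by_cases hik : i = k
        · subst hik
          simp [hk]
        · by_cases hlt : i < k
          · have : ¬ k = i := fun h => hik h.symm
            simp [hlt, this]
          · have h5 : U.testBit i = false := by
              apply Nat.testBit_lt_two_pow
              exact lt_of_lt_of_le hU (Nat.pow_le_pow_right (by decide) (by omega))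
            have : ¬ k = i := fun h => hik h.symm
            simp [hlt, h5, this]
      rw [e, hpc, show n + 1 + pop k U = n + (1 + pop k U) by ring] at h3
      exact h3
    · have h5 : U.testBit k = false := by simpa using hk
      have hlt : U < 2 ^ k := by
        by_contra hcon
        have h6 : 2 ^ k ≤ U := by omega
        have h7 : U / 2 ^ k = 1 := by
          have h8 : U < 2 ^ k * 2 := by rw [← Nat.pow_succ]; exact hU
          apply Nat.div_eq_of_lt_le <;> omega
        rw [Nat.testBit_eq_decide_div_mod_eq, h7] at h5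
        simp at h5
      rw [pop_succ, if_neg hk, Nat.zero_add] at hb ⊢
      exact ih _ _ _ h'.1 U hlt hs hb

theorem allSub_complete (f : ℕ → Bool) (c : ℕ) : ∀ k acc,
    (∀ U, U < 2 ^ k → (∀ i, U.testBit i = true → c.testBit i = true) → f (acc ||| U) = true) →
    allSub k c acc f = true := by
  intro k
  induction k with
  | zero =>
    intro acc h
    have := h 0 (by simp) (by simp)
    rw [Nat.or_zero] at this
    exact this
  | succ k ih =>
    intro acc h
    have g' : (allSub k c acc f && (!(bitB c k) || allSub k c (acc ||| 2 ^ k) f)) = true := by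
      rw [Bool.and_eq_true]
      refine ⟨ih acc fun U hU hs => h U (lt_of_lt_of_le hU
        (Nat.pow_le_pow_right (by decide) (by omega))) hs, ?_⟩
      rw [bitB_eq]
      cases hc : c.testBit k with
      | false => rfl
      | true =>
        simp only [Bool.not_true, Bool.false_or]
        apply ih
        intro U hU hs
        have h1 := h (2 ^ k ||| U) (by
          apply Nat.or_lt_two_pow
          · exact Nat.pow_lt_pow_right (by decide) (by omega)
          · exact lt_of_lt_of_le hU (Nat.pow_le_pow_right (by decide) (by omega))) (by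
          intro i hi
          rw [Nat.testBit_or, Bool.or_eq_true, Nat.testBit_two_pow] at hi
          rcases hi with hi | hi
          · have : k = i := by simpa using hi
            exact this ▸ hc
          · exact hs i hi)
        rw [Nat.or_assoc]
        exact h1
    exact g'

theorem acc_disj (m C U : ℕ) (hU : ∀ i, U.testBit i = true → C.testBit i = true) (i : ℕ) :
    ¬ (((2 ^ m - 1) ^^^ C).testBit i = true ∧ U.testBit i = true) ∨ ¬ i < m := by
  by_cases hi : i < m
  · left
    rintro ⟨h1, h2⟩
    rw [Nat.testBit_xor, Nat.testBit_two_pow_sub_one, decide_eq_true hi, hU i h2] at h1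
    exact absurd h1 (by decide)
  · exact Or.inr hi

theorem pop_acc (m C U : ℕ) (hU : ∀ i, U.testBit i = true → C.testBit i = true) :
    pop m (((2 ^ m - 1) ^^^ C) ||| U) = pop m ((2 ^ m - 1) ^^^ C) + pop m U := by
  rw [pop_eq, pop_eq, pop_eq, ← Finset.sum_add_distrib]
  apply Finset.sum_congr rfl
  intro i hi
  have h1 := acc_disj m C U hU i
  have hi' := Finset.mem_range.1 hi
  have h2 : ¬ (((2 ^ m - 1) ^^^ C).testBit i = true ∧ U.testBit i = true) := by
    rcases h1 with h | h
    · exact h
    · exact absurd hi' h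
  rw [Nat.testBit_or]
  revert h2
  cases ((2 ^ m - 1) ^^^ C).testBit i <;> cases U.testBit i <;> simp

/-- All `X ⊇ ` complement of `C` with at most `b / q` elements. -/
def supN (P : Par) (C b : ℕ) (f : ℕ → ℕ → Bool) : Bool :=
  !(Nat.ble (P.q * pop P.m ((2 ^ P.m - 1) ^^^ C)) b) ||
    allSubN P.m C ((2 ^ P.m - 1) ^^^ C) (pop P.m ((2 ^ P.m - 1) ^^^ C))
      (b / P.q - pop P.m ((2 ^ P.m - 1) ^^^ C)) f

theorem supN_sound (P : Par) (hq : 0 < P.q) (C b : ℕ) (f : ℕ → ℕ → Bool)
    (h : supN P C b f = true) (U : ℕ) (hU : U < 2 ^ P.m)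
    (hs : ∀ i, U.testBit i = true → C.testBit i = true)
    (hb : P.q * pop P.m (((2 ^ P.m - 1) ^^^ C) ||| U) ≤ b) :
    f (((2 ^ P.m - 1) ^^^ C) ||| U) (pop P.m (((2 ^ P.m - 1) ^^^ C) ||| U)) = true := by
  unfold supN at h
  rw [pop_acc _ _ _ hs] at hb ⊢
  have h1 : pop P.m ((2 ^ P.m - 1) ^^^ C) + pop P.m U ≤ b / P.q := by
    rw [Nat.le_div_iff_mul_le hq, Nat.mul_comm]
    exact hb
  have h2 : Nat.ble (P.q * pop P.m ((2 ^ P.m - 1) ^^^ C)) b = true := by
    rw [Nat.ble_eq]
    rw [Nat.mul_add] at hb
    omega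
  rw [h2] at h
  simp only [Bool.not_true, Bool.false_or] at h
  exact allSubN_sound _ _ _ _ _ _ h U hU hs (by omega)

/-- Check of the table of potentials, for the half state `(A, C)`. -/
def potN (P : Par) (A C : ℕ) : Bool :=
  (!(Nat.beq C (2 ^ P.m - 1)) || Nat.ble (V2.pot P A C) P.K) &&
    supN P C (V2.pot P A C + P.p) fun X n =>
      Nat.ble (V2.pot P A C + P.p) (P.q * n + V2.pot P X (A ||| nbr P.m X))

theorem potN_sound (P : Par) (hq : 0 < P.q) (A C : ℕ) (h : potN P A C = true) :
    V2.potOK1 P A C = true := by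
  unfold potN at h
  unfold V2.potOK1
  rw [Bool.and_eq_true] at h ⊢
  refine ⟨h.1, allSub_complete _ _ _ _ ?_⟩
  intro U hU hs
  by_cases hb : P.q * pop P.m (((2 ^ P.m - 1) ^^^ C) ||| U) ≤ V2.pot P A C + P.p
  · exact supN_sound P hq C _ _ h.2 U hU hs hb
  · rw [Nat.ble_eq]
    omega

/-- Check of the table of potentials for the rows `a ≤ A < a + k`. -/
def potRowsN (P : Par) (a k : ℕ) : Bool :=
  allR k fun i => allSub P.m ((2 ^ P.m - 1) ^^^ nbr P.m (a + i)) (nbr P.m (a + i)) fun C =>
    potN P (a + i) C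

theorem potRowsN_sound (P : Par) (hq : 0 < P.q) (a k : ℕ) (h : potRowsN P a k = true) :
    V2.potRows P a k = true := by
  unfold potRowsN at h
  unfold V2.potRows
  rw [allR_iff] at h ⊢
  intro i hi
  exact allSub_mono _ _ _ (fun C hC => potN_sound P hq _ C hC) _ _ (h i hi)

/-- Check of the successors of a state. -/
def stepN (P : Par) (T : Tr) (s : St) : Bool :=
  supN P s.C (s.x + V2.pot P s.A s.C + P.p) fun X n =>
    !(Nat.beq (s.L &&& X) s.L &&
        Nat.ble (P.q * n + V2.pot P X (s.A ||| nbr P.m X)) (s.x + V2.pot P s.A s.C + P.p)) ||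
    supN P s.E (s.y + V2.pot P s.B s.E + P.p) fun Y k =>
      !(Nat.beq (s.R &&& Y) s.R &&
          Nat.ble (P.q * k + V2.pot P Y (s.B ||| nbr P.m Y)) (s.y + V2.pot P s.B s.E + P.p)) ||
      allSub P.m ((X ^^^ s.L) &&& ((Y ^^^ s.R) >>> 1)) 0 fun U =>
        allSub P.m ((Y ^^^ s.R ^^^ (U <<< 1)) &&& ((X ^^^ s.L ^^^ U) >>> 1)) 0 fun W =>
          memT (key ⟨X, Y, X ^^^ s.L ^^^ U ^^^ (W <<< 1), Y ^^^ s.R ^^^ (U <<< 1) ^^^ W,
            s.A ||| nbr P.m X, s.B ||| nbr P.m Y,
            s.x + V2.pot P s.A s.C + P.p - (P.q * n + V2.pot P X (s.A ||| nbr P.m X)),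
            s.y + V2.pot P s.B s.E + P.p - (P.q * k + V2.pot P Y (s.B ||| nbr P.m Y))⟩)
            ⟨X, Y, X ^^^ s.L ^^^ U ^^^ (W <<< 1), Y ^^^ s.R ^^^ (U <<< 1) ^^^ W,
            s.A ||| nbr P.m X, s.B ||| nbr P.m Y,
            s.x + V2.pot P s.A s.C + P.p - (P.q * n + V2.pot P X (s.A ||| nbr P.m X)),
            s.y + V2.pot P s.B s.E + P.p - (P.q * k + V2.pot P Y (s.B ||| nbr P.m Y))⟩ T

theorem stepN_sound (P : Par) (hq : 0 < P.q) (T : Tr) (s : St) (h : stepN P T s = true) :
    stepT P T s = true := by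
  unfold stepN at h
  unfold stepT
  apply allSub_complete
  intro U hU hs
  by_cases hb : P.q * pop P.m (((2 ^ P.m - 1) ^^^ s.C) ||| U) ≤ s.x + V2.pot P s.A s.C + P.p
  · have h1 := supN_sound P hq _ _ _ h U hU hs hb
    rw [Bool.or_eq_true] at h1 ⊢
    rcases h1 with h1 | h1
    · exact Or.inl h1
    right
    apply allSub_complete
    intro W hW hs'
    by_cases hb' : P.q * pop P.m (((2 ^ P.m - 1) ^^^ s.E) ||| W) ≤ s.y + V2.pot P s.B s.E + P.p
    · exact supN_sound P hq _ _ _ h1 W hW hs' hb'
    · rw [Bool.or_eq_true]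
      left
      rw [Bool.not_eq_true', Bool.and_eq_false_iff]
      right
      rw [← Bool.not_eq_true, Nat.ble_eq]
      omega
  · rw [Bool.or_eq_true]
    left
    rw [Bool.not_eq_true', Bool.and_eq_false_iff]
    right
    rw [← Bool.not_eq_true, Nat.ble_eq]
    omega

theorem allN (P : Par) (hq : 0 < P.q) (T L : Tr) (h : allT (stepN P T) L = true) :
    allT (stepT P T) L = true := by
  induction L with
  | nil => rfl
  | node k s l r ihl ihr =>
    rw [allT, Bool.and_eq_true, Bool.and_eq_true] at h ⊢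
    exact ⟨stepN_sound P hq T s h.1, ihl h.2.1, ihr h.2.2⟩

theorem allT_node (f : St → Bool) (k : ℕ) (s : St) (l r : Tr) (h : f s = true)
    (hl : allT f l = true) (hr : allT f r = true) : allT f (.node k s l r) = true := by
  rw [allT, h, hl, hr]
  rfl

end PatDom.V4
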